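import Pool.Agent.N620.WU.Main
import Pool.Agent.H565R2.FO2.Myc

set_option autoImplicit false

/-! Free sets. -/

namespace Pool.Agent.N620.FS

open Pool.Agent.Helper227 Pool.Agent.N620.WP Pool.Agent.N620.WU

/-- The `k`-th column of `y`. -/
def cl (y : ℕ → Bool) (k : ℕ) : ℕ → Bool := fun n => y (Nat.pair k n)

theorem continuous_cl (k : ℕ) : Continuous fun y : ℕ → Bool => cl y k :=
  continuous_pi fun n => continuous_apply (A := fun _ : ℕ => Bool) (Nat.pair k n)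

/-- `v` enumerates a set which contains `f x`. -/
def Enm (X : Set (ℕ → Bool)) (f : (ℕ → Bool) → Set (ℕ → Bool)) (x v : ℕ → Bool) : Prop :=
  x ∈ X ∧ ∀ y ∈ f x, ∃ k, cl v k = y

theorem exists_enm {X : Set (ℕ → Bool)} {f : (ℕ → Bool) → Set (ℕ → Bool)}
    (hf : ∀ x ∈ X, (f x).Countable) : {x | ∃ v, Enm X f x v} = X := by
  ext x
  refine ⟨fun ⟨v, h, _⟩ => h, fun hx => ?_⟩
  by_cases hne : (f x).Nonempty
  · obtain ⟨g, hg⟩ := (hf x hx).exists_eq_range hne
    refine ⟨J g, hx, fun y hy => ?_⟩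
    rw [hg] at hy
    obtain ⟨k, rfl⟩ := hy
    refine ⟨k, ?_⟩
    funext n
    simp [cl, J]
  · exact ⟨fun _ => false, hx, fun y hy => absurd ⟨y, hy⟩ hne⟩

/-- A Cantor set minus countably many points contains a Cantor set. -/
theorem not_countable_of_pos {h : (ℕ → Bool) → ℕ → Bool} (hi : Function.Injective h)
    {Y : Set (ℕ → Bool)} (hY : ∀ k : (ℕ → Bool) → ℕ → Bool, Continuous k → Function.Injective k →
      ∃ c, h (k c) ∈ Y) : ¬ Y.Countable := by
  intro hc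
  obtain ⟨g, h1, h2, h3⟩ := exists_avoid (hc.preimage hi)
  obtain ⟨c, hc⟩ := hY g h1 h2
  exact h3 c hc

/-- Free sets from continuous enumerations on a Marczewski positive set. -/
theorem free {X : Set (ℕ → Bool)} {f : (ℕ → Bool) → Set (ℕ → Bool)}
    {p q : (ℕ → Bool) → ℕ → Bool} (hp : Continuous p) (hpi : Function.Injective p)
    (hq : Continuous q) (h : ∀ k : (ℕ → Bool) → ℕ → Bool, Continuous k → Function.Injective k →
      ∃ c, Enm X f (p (k c)) (q (k c))) :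
    ∃ g : (ℕ → Bool) → ℕ → Bool, (Continuous g ∧ Function.Injective g) ∧ ∃ Y ⊆ X ∩ Set.range g,
      (∀ k : (ℕ → Bool) → ℕ → Bool, (Continuous k ∧ Function.Injective k) → ∃ c, g (k c) ∈ Y) ∧
      ∀ x ∈ Y, ∀ y ∈ Y, x ≠ y → x ∉ f y := by
  have hW : ∀ n : Option ℕ, IsOpen (match n with
      | none => {c : (ℕ → Bool) × (ℕ → Bool) | c.1 ≠ c.2}
      | some k => {c : (ℕ → Bool) × (ℕ → Bool) | p c.1 ≠ cl (q c.2) k}) := by
    rintro (_ | k)
    · exact isOpen_ne_fun continuous_fst continuous_snd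
    · exact isOpen_ne_fun (hp.comp continuous_fst) ((continuous_cl k).comp (hq.comp continuous_snd))
  have key : ∀ (a : ℕ → Bool) (U : Set (ℕ → Bool)), IsOpen U → U.Nonempty → ∃ c ∈ U, c ≠ a := by
    intro a U hU hne
    by_contra hcon
    push Not at hcon
    obtain ⟨c, hc⟩ := hne
    obtain ⟨I, v, hI, hv⟩ := isOpen_pi_iff.1 hU c hc
    let c' : ℕ → Bool := Function.update c (I.sup id + 1) (!(c (I.sup id + 1)))
    have h1 : c' ∈ U := hv fun i hi => by
      have h3 : i ≠ I.sup id + 1 := by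
        have : i ≤ I.sup id := Finset.le_sup (f := id) hi
        omega
      simp only [c']
      rw [Function.update_of_ne h3]
      exact (hI i hi).2
    have h2 := (hcon c hc).trans (hcon c' h1).symm
    have h3 := congrFun h2 (I.sup id + 1)
    simp [c'] at h3
  have hWd : ∀ n : Option ℕ, Dense (match n with
      | none => {c : (ℕ → Bool) × (ℕ → Bool) | c.1 ≠ c.2}
      | some k => {c : (ℕ → Bool) × (ℕ → Bool) | p c.1 ≠ cl (q c.2) k}) := by
    intro n
    rw [dense_iff_inter_open]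
    rintro U hU ⟨⟨a, b⟩, hab⟩
    have hU' : IsOpen ((fun c => (c, b)) ⁻¹' U) := hU.preimage (by fun_prop)
    rcases n with _ | k
    · obtain ⟨c, h1, h2⟩ := key b _ hU' ⟨a, hab⟩
      exact ⟨(c, b), h1, h2⟩
    · by_cases hex : ∃ c0, p c0 = cl (q b) k
      · obtain ⟨c0, hc0⟩ := hex
        obtain ⟨c, h1, h2⟩ := key c0 _ hU' ⟨a, hab⟩
        refine ⟨(c, b), h1, fun h3 => h2 (hpi ?_)⟩
        rw [hc0]
        exact h3
      · exact ⟨(a, b), hab, fun h3 => hex ⟨a, h3⟩⟩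
  obtain ⟨e, he⟩ := exists_surjective_nat (Option ℕ)
  obtain ⟨h0, h1, h2⟩ := Pool.Agent.H565R2.FO2.mycielski' _ (fun n => hW (e n)) fun n => hWd (e n)
  have h3 : Function.Injective h0 := by
    intro b b' hb
    by_contra hne
    obtain ⟨n, hn⟩ := he none
    have h4 := h2 b b' hne n
    rw [hn] at h4
    exact h4 hb
  have h4 : ∀ b b', b ≠ b' → ∀ k, p (h0 b) ≠ cl (q (h0 b')) k := by
    intro b b' hb k
    obtain ⟨n, hn⟩ := he (some k)
    have h5 := h2 b b' hb n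
    rw [hn] at h5
    exact h5
  refine ⟨fun c => p (h0 c), ⟨hp.comp h1, hpi.comp h3⟩,
    {x | ∃ c, x = p (h0 c) ∧ Enm X f (p (h0 c)) (q (h0 c))}, ?_, ?_, ?_⟩
  · rintro x ⟨c, rfl, h5⟩
    exact ⟨h5.1, c, rfl⟩
  · rintro k ⟨hk, hk'⟩
    obtain ⟨c, hc⟩ := h (fun c => h0 (k c)) (h1.comp hk) (h3.comp hk')
    exact ⟨c, k c, rfl, hc⟩
  · rintro x ⟨c, rfl, h5⟩ y ⟨c', rfl, h6⟩ hne hmem
    obtain ⟨k, hk⟩ := h6.2 _ hmem
    refine h4 c c' (fun h7 => hne (by rw [h7])) k hk.symm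

end Pool.Agent.N620.FS
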